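import Pool.Agent.H79.QN.Stmts3

/-! Row `LTA` of the board `qn` of helper79 (MP_fa59e7_an). -/

set_option autoImplicit false

namespace Pool.Agent.H79.QN

open Finset MeasureTheory

/-- positive derivative on the right -/
lemma lta_pos {f : ℝ → ℝ} {x₀ c ε : ℝ} {m : ℕ} (hf : Differentiable ℝ f) (h0 : f x₀ = 0)
    (h : ∀ x, x₀ < x → x < x₀ + ε → c * (x - x₀) ^ m ≤ deriv f x) :
    ∀ x, x₀ ≤ x → x < x₀ + ε → c / (m + 1) * (x - x₀) ^ (m + 1) ≤ f x := by
  intro x hx hxε
  have hd : ∀ t : ℝ, HasDerivAt (fun t => f t - c / (m + 1) * (t - x₀) ^ (m + 1))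
      (deriv f t - c * (t - x₀) ^ m) t := by
    intro t
    have h1 : HasDerivAt (fun t : ℝ => (t - x₀) ^ (m + 1)) (((m + 1 : ℕ) : ℝ) * (t - x₀) ^ m * 1) t := by
      have := ((hasDerivAt_id t).sub_const x₀).fun_pow (m + 1)
      simpa using this
    have h2 := (hf t).hasDerivAt.sub (h1.const_mul (c / (m + 1)))
    refine h2.congr_deriv ?_
    have : ((m : ℝ) + 1) ≠ 0 := by positivity
    push_cast
    field_simp
  have hmono : MonotoneOn (fun t => f t - c / (m + 1) * (t - x₀) ^ (m + 1)) (Set.Icc x₀ x) := by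
    apply monotoneOn_of_deriv_nonneg (convex_Icc _ _)
    · exact fun t _ => (hd t).continuousAt.continuousWithinAt
    · exact fun t _ => (hd t).differentiableAt.differentiableWithinAt
    · intro t ht
      rw [interior_Icc] at ht
      rw [(hd t).deriv]
      have := h t ht.1 (ht.2.trans hxε)
      linarith
  have := hmono (Set.left_mem_Icc.2 hx) (Set.right_mem_Icc.2 hx) hx
  simp only [h0, sub_self] at this
  rw [zero_pow (by omega), mul_zero, sub_zero] at this
  linarith

/-- right side -/
lemma lta_right {f : ℝ → ℝ} {x₀ c ε : ℝ} {m : ℕ} (hf : Differentiable ℝ f)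
    (hc' : Continuous (deriv f)) (hc : 0 < c) (h0 : f x₀ = 0)
    (h : ∀ x, x₀ < x → x < x₀ + ε → c * (x - x₀) ^ m ≤ |deriv f x|) :
    ∀ x, x₀ ≤ x → x < x₀ + ε → c / (m + 1) * (x - x₀) ^ (m + 1) ≤ |f x| := by
  by_cases hs : ∀ x ∈ Set.Ioo x₀ (x₀ + ε), 0 < deriv f x
  · intro x hx hxε
    refine (lta_pos hf h0 ?_ x hx hxε).trans (le_abs_self _)
    intro t h1 h2
    have := h t h1 h2
    rwa [abs_of_pos (hs t ⟨h1, h2⟩)] at this
  · have hne : ∀ x ∈ Set.Ioo x₀ (x₀ + ε), deriv f x ≠ 0 := by
      intro x hx hx0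
      have h1 := h x hx.1 hx.2
      rw [hx0, abs_zero] at h1
      have : 0 < c * (x - x₀) ^ m := mul_pos hc (pow_pos (by linarith [hx.1]) m)
      linarith
    have hneg : ∀ x ∈ Set.Ioo x₀ (x₀ + ε), deriv f x < 0 := by
      by_contra hcon
      push Not at hs hcon
      obtain ⟨a, ha, ha'⟩ := hs
      obtain ⟨b, hb, hb'⟩ := hcon
      have := isPreconnected_Ioo.intermediate_value ha hb hc'.continuousOn
        (Set.mem_Icc.2 ⟨ha', hb'⟩)
      obtain ⟨y, hy, hy'⟩ := this
      exact hne y hy hy'
    intro x hx hxε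
    have hf' : Differentiable ℝ (fun t => -f t) := hf.neg
    have hd' : ∀ t, deriv (fun t => -f t) t = -deriv f t := fun t => deriv.neg
    have := lta_pos (f := fun t => -f t) (x₀ := x₀) (c := c) (ε := ε) (m := m) hf'
      (by simp [h0]) ?_ x hx hxε
    · exact this.trans (neg_le_abs _)
    · intro t h1 h2
      rw [hd' t]
      have := h t h1 h2
      rwa [abs_of_neg (hneg t ⟨h1, h2⟩)] at this

theorem lta : S_LTA := by
  intro m
  induction m with
  | zero =>
    intro f x₀ hf _ hm
    rw [iteratedDeriv_zero] at hm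
    have hcont : Continuous fun x => |f x| := hf.continuous.abs
    have hpos : 0 < |f x₀| := abs_pos.2 hm
    have hev : ∀ᶠ x in nhds x₀, |f x₀| / 2 < |f x| :=
      hcont.continuousAt.eventually (lt_mem_nhds (by linarith))
    obtain ⟨ε, hε, hb⟩ := Metric.eventually_nhds_iff.1 hev
    refine ⟨|f x₀| / 2, ε, by linarith, hε, ?_⟩
    intro x hx
    rw [pow_zero, mul_one]
    exact (hb (by rwa [Real.dist_eq])).le
  | succ m ih =>
    intro f x₀ hf hi hm
    have hf1 : ContDiff ℝ ((m : WithTop ℕ∞) + 1) f := by exact_mod_cast hf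
    obtain ⟨hdiff, -, hd⟩ := contDiff_succ_iff_deriv.1 hf1
    have h0 : f x₀ = 0 := by
      have := hi 0 (by omega)
      rwa [iteratedDeriv_zero] at this
    obtain ⟨c, ε, hc, hε, hb⟩ := ih (deriv f) x₀ hd
      (fun i hi' => by rw [← iteratedDeriv_succ']; exact hi (i + 1) (by omega))
      (by rwa [← iteratedDeriv_succ'])
    have hcd : Continuous (deriv f) := hd.continuous
    refine ⟨c / (m + 1), ε, by positivity, hε, ?_⟩
    intro x hx
    rcases le_total x₀ x with hle | hle
    · rw [abs_of_nonneg (sub_nonneg.2 hle)] at hx ⊢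
      refine lta_right (ε := ε) hdiff hcd hc h0 ?_ x hle (by linarith)
      intro t h1 h2
      have := hb t (by rw [abs_of_pos (by linarith)]; linarith)
      rwa [abs_of_pos (by linarith)] at this
    · have hg : ∀ t : ℝ, HasDerivAt (fun t => f (2 * x₀ - t)) (-deriv f (2 * x₀ - t)) t := by
        intro t
        have h1 : HasDerivAt (fun t : ℝ => 2 * x₀ - t) (-1) t := by
          simpa using (hasDerivAt_id t).const_sub (2 * x₀)
        have h2 := (hdiff (2 * x₀ - t)).hasDerivAt.comp t h1
        refine h2.congr_deriv ?_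
        ring
      have hgd : deriv (fun t => f (2 * x₀ - t)) = fun t => -deriv f (2 * x₀ - t) :=
        funext fun t => (hg t).deriv
      have key := lta_right (f := fun t => f (2 * x₀ - t)) (x₀ := x₀) (c := c) (ε := ε) (m := m)
        (fun t => (hg t).differentiableAt)
        (by rw [hgd]; exact (hcd.comp (continuous_const.sub continuous_id)).neg) hc
        (by show f (2 * x₀ - x₀) = 0; rw [show 2 * x₀ - x₀ = x₀ by ring]; exact h0) ?_
        (2 * x₀ - x) (by linarith) (by
          rw [abs_of_nonpos (by linarith)] at hx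
          linarith)
      · have e1 : 2 * x₀ - (2 * x₀ - x) = x := by ring
        have e2 : 2 * x₀ - x - x₀ = |x - x₀| := by
          rw [abs_of_nonpos (by linarith)]; ring
        simp only [e1, e2] at key
        exact key
      · intro t h1 h2
        rw [hgd]
        have := hb (2 * x₀ - t) (by rw [abs_of_neg (by linarith)]; linarith)
        have e3 : |2 * x₀ - t - x₀| = t - x₀ := by rw [abs_of_neg (by linarith)]; ring
        rw [e3] at this
        simpa using this

end Pool.Agent.H79.QN
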